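import Pool.Agent.H92.EQ.TP

/-!
Board MP_75a732_an, row PLL: local integrability of the logarithm of a polynomial.
(The mean value over a circle of the logarithm is at least the value in the centre: the coefficient
of degree zero is at most the Mahler measure.)
-/

namespace Pool.Agent.H95.EQ

open scoped BigOperators ComplexConjugate ENNReal
open MeasureTheory Pool.Agent.H92.EQ Metric

/-- the restriction of a polynomial to a line -/
noncomputable def lp {N : ℕ} (h : MvPolynomial (Fin N) ℂ) (a v : Fin N → ℂ) : Polynomial ℂ :=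
  MvPolynomial.aeval (fun i => Polynomial.C (a i) + Polynomial.X * Polynomial.C (v i)) h

theorem eval_lp {N : ℕ} (h : MvPolynomial (Fin N) ℂ) (a v : Fin N → ℂ) (t : ℂ) :
    (lp h a v).eval t = MvPolynomial.eval (a + t • v) h := by
  unfold lp
  induction h using MvPolynomial.induction_on with
  | C c => simp
  | add p q hp hq => rw [map_add, map_add, Polynomial.eval_add, hp, hq]
  | mul_X p i hp =>
    rw [map_mul, map_mul, Polynomial.eval_mul, hp, MvPolynomial.aeval_X, MvPolynomial.eval_X]
    simp only [Polynomial.eval_add, Polynomial.eval_mul, Polynomial.eval_C, Polynomial.eval_X,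
      Pi.add_apply, Pi.smul_apply, smul_eq_mul]

/-- Jensen's inequality -/
theorem jens {N : ℕ} (h : MvPolynomial (Fin N) ℂ) (a v : Fin N → ℂ)
    (ha : MvPolynomial.eval a h ≠ 0) :
    2 * Real.pi * Real.log ‖MvPolynomial.eval a h‖ ≤ ∫ θ in (0 : ℝ)..(2 * Real.pi),
      Real.log ‖MvPolynomial.eval (a + circleMap 0 1 θ • v) h‖ := by
  have h0 : (lp h a v).coeff 0 = MvPolynomial.eval a h := by
    rw [Polynomial.coeff_zero_eq_eval_zero, eval_lp, zero_smul, add_zero]
  have h1 := Polynomial.norm_coeff_le_choose_mul_mahlerMeasure 0 (lp h a v)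
  rw [h0, Nat.choose_zero_right, Nat.cast_one, one_mul] at h1
  have h2 : Real.log ‖MvPolynomial.eval a h‖ ≤ (lp h a v).logMahlerMeasure := by
    rw [Polynomial.logMahlerMeasure_eq_log_MahlerMeasure]
    exact Real.log_le_log (norm_pos_iff.2 ha) h1
  rw [Polynomial.logMahlerMeasure_def, Real.circleAverage_def, smul_eq_mul,
    ← div_eq_inv_mul, le_div_iff₀ Real.two_pi_pos] at h2
  simp only [eval_lp] at h2
  linarith

/-- rotations -/
theorem mp_rot {N : ℕ} (e : ℂ) (he : ‖e‖ = 1) :
    MeasurePreserving (fun v : Fin N → ℂ => e • v) volume volume := by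
  have h1 : MeasurePreserving (fun z : ℂ => e * z) volume volume := by
    have h2 := (rotation (⟨e, by simp [Submonoid.unitSphere, he]⟩ : Circle)).measurePreserving
    exact h2
  exact volume_preserving_pi (fun _ : Fin N => h1)

theorem log_le_logM {x M : ℝ} (hx : 0 ≤ x) (hM : 1 ≤ M) (h : x ≤ M) :
    Real.log x ≤ Real.log M := by
  rcases hx.eq_or_lt with h0 | h0
  · rw [← h0, Real.log_zero]
    exact Real.log_nonneg hM
  · exact Real.log_le_log h0 h

theorem int_ball {N : ℕ} (h : MvPolynomial (Fin N) ℂ) (a : Fin N → ℂ)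
    (ha : MvPolynomial.eval a h ≠ 0) (R : ℝ) :
    IntegrableOn (fun z : Fin N → ℂ => Real.log ‖MvPolynomial.eval z h‖) (closedBall a R) := by
  have hcont : Continuous fun z : Fin N → ℂ => MvPolynomial.eval z h :=
    MvPolynomial.continuous_eval h
  obtain ⟨M₀, hM₀⟩ := (isCompact_closedBall a R).exists_bound_of_continuousOn hcont.continuousOn
  set M : ℝ := max 1 M₀ with hM
  have hM1 : 1 ≤ M := le_max_left _ _
  have hMb : ∀ z ∈ closedBall a R, ‖MvPolynomial.eval z h‖ ≤ M := fun z hz =>
    (hM₀ z hz).trans (le_max_right _ _)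
  set B : Set (Fin N → ℂ) := closedBall 0 R with hB
  have hBm : MeasurableSet B := measurableSet_closedBall
  have hBf : volume B < ∞ := measure_closedBall_lt_top
  set c : ℝ := Real.log M - Real.log ‖MvPolynomial.eval a h‖ with hc
  -- the function
  set g : (Fin N → ℂ) → ℝ := fun v => Real.log M - Real.log ‖MvPolynomial.eval (a + v) h‖ with hg
  have hgm : Measurable g := by
    apply Measurable.sub measurable_const
    exact Real.measurable_log.comp (hcont.comp (continuous_const.add continuous_id)).norm.measurable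
  have hg0 : ∀ v ∈ B, 0 ≤ g v := by
    intro v hv
    have h1 : a + v ∈ closedBall a R := by
      rw [hB, mem_closedBall_zero_iff] at hv
      rw [mem_closedBall, dist_eq_norm, add_sub_cancel_left]
      exact hv
    have := log_le_logM (norm_nonneg _) hM1 (hMb _ h1)
    rw [hg]
    simp only
    linarith
  set J : ℝ≥0∞ := ∫⁻ v in B, ENNReal.ofReal (g v) with hJ
  have hrotB : ∀ θ : ℝ, (fun v : Fin N → ℂ => circleMap 0 1 θ • v) ⁻¹' B = B := by
    intro θ
    ext v
    rw [Set.mem_preimage, hB, mem_closedBall_zero_iff, mem_closedBall_zero_iff, norm_smul,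
      norm_circleMap_zero, abs_one, one_mul]
  have hrot : ∀ θ : ℝ, ∫⁻ v in B, ENNReal.ofReal (g (circleMap 0 1 θ • v)) = J := by
    intro θ
    have h1 := (mp_rot (N := N) (circleMap 0 1 θ) (by
      rw [norm_circleMap_zero, abs_one])).setLIntegral_comp_preimage hBm
      (ENNReal.measurable_ofReal.comp hgm)
    rw [hrotB] at h1
    exact h1
  have hmeas : Measurable (fun p : ℝ × (Fin N → ℂ) =>
      ENNReal.ofReal (g (circleMap 0 1 p.1 • p.2))) := by
    apply ENNReal.measurable_ofReal.comp
    apply hgm.comp
    exact (((continuous_circleMap 0 1).comp continuous_fst).smul continuous_snd).measurable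
  have hswap : ∫⁻ θ in Set.Ioc 0 (2 * Real.pi), ∫⁻ v in B,
      ENNReal.ofReal (g (circleMap 0 1 θ • v)) =
      ∫⁻ v in B, ∫⁻ θ in Set.Ioc 0 (2 * Real.pi), ENNReal.ofReal (g (circleMap 0 1 θ • v)) :=
    lintegral_lintegral_swap hmeas.aemeasurable
  have hin : ∀ v ∈ B, ∫⁻ θ in Set.Ioc 0 (2 * Real.pi), ENNReal.ofReal (g (circleMap 0 1 θ • v)) ≤
      ENNReal.ofReal (2 * Real.pi * c) := by
    intro v hv
    have hI1 : IntervalIntegrable (fun θ : ℝ =>
        Real.log ‖MvPolynomial.eval (a + circleMap 0 1 θ • v) h‖) volume 0 (2 * Real.pi) := by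
      have := Polynomial.intervalIntegrable_mahlerMeasure (p := lp h a v)
      simpa only [eval_lp] using this
    have hI2 : IntervalIntegrable (fun θ : ℝ => g (circleMap 0 1 θ • v)) volume 0
        (2 * Real.pi) := intervalIntegrable_const.sub hI1
    have hI3 : Integrable (fun θ : ℝ => g (circleMap 0 1 θ • v))
        (volume.restrict (Set.Ioc 0 (2 * Real.pi))) :=
      (intervalIntegrable_iff_integrableOn_Ioc_of_le Real.two_pi_pos.le).1 hI2
    have hnn : ∀ θ : ℝ, 0 ≤ g (circleMap 0 1 θ • v) := by
      intro θ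
      apply hg0
      have : v ∈ (fun v : Fin N → ℂ => circleMap 0 1 θ • v) ⁻¹' B := by
        rw [hrotB]; exact hv
      exact this
    rw [← ofReal_integral_eq_lintegral_ofReal hI3 (Filter.Eventually.of_forall hnn)]
    apply ENNReal.ofReal_le_ofReal
    rw [← intervalIntegral.integral_of_le Real.two_pi_pos.le]
    have h2 : ∫ θ in (0 : ℝ)..(2 * Real.pi), g (circleMap 0 1 θ • v) =
        2 * Real.pi * Real.log M - ∫ θ in (0 : ℝ)..(2 * Real.pi),
          Real.log ‖MvPolynomial.eval (a + circleMap 0 1 θ • v) h‖ := by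
      simp only [hg]
      rw [intervalIntegral.integral_sub intervalIntegrable_const hI1,
        intervalIntegral.integral_const]
      simp
    rw [h2, hc]
    have h3 := jens h a v ha
    linarith
  have hJ2 : ENNReal.ofReal (2 * Real.pi) * J < ∞ := by
    have h1 : ∫⁻ θ in Set.Ioc 0 (2 * Real.pi), ∫⁻ v in B,
        ENNReal.ofReal (g (circleMap 0 1 θ • v)) = ENNReal.ofReal (2 * Real.pi) * J := by
      simp only [hrot]
      rw [lintegral_const, Measure.restrict_apply MeasurableSet.univ, Set.univ_inter,
        Real.volume_Ioc, sub_zero, mul_comm]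
    rw [← h1, hswap]
    calc ∫⁻ v in B, ∫⁻ θ in Set.Ioc 0 (2 * Real.pi), ENNReal.ofReal (g (circleMap 0 1 θ • v)) ≤
        ∫⁻ _ in B, ENNReal.ofReal (2 * Real.pi * c) :=
          setLIntegral_mono measurable_const hin
      _ = ENNReal.ofReal (2 * Real.pi * c) * volume B := by
          rw [lintegral_const, Measure.restrict_apply MeasurableSet.univ, Set.univ_inter]
      _ < ∞ := ENNReal.mul_lt_top ENNReal.ofReal_lt_top hBf
  have hJ3 : J < ∞ := by
    by_contra h
    rw [not_lt, top_le_iff] at h
    rw [h, ENNReal.mul_top] at hJ2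
    · exact lt_irrefl _ hJ2
    · rw [Ne, ENNReal.ofReal_eq_zero, not_le]
      exact Real.two_pi_pos
  have hgi : IntegrableOn g B := by
    refine ⟨hgm.aestronglyMeasurable, ?_⟩
    rw [hasFiniteIntegral_iff_ofReal]
    · exact hJ3
    · rw [Filter.EventuallyLE, ae_restrict_iff' hBm]
      exact Filter.Eventually.of_forall fun v hv => hg0 v hv
  have hli : IntegrableOn (fun v : Fin N → ℂ => Real.log ‖MvPolynomial.eval (a + v) h‖) B := by
    have h1 : IntegrableOn (fun _ : Fin N → ℂ => Real.log M) B := integrableOn_const hBf.ne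
    have h2 := h1.sub hgi
    refine h2.congr (Filter.Eventually.of_forall fun v => ?_)
    simp only [hg, Pi.sub_apply]
    ring
  have hpre : (fun v : Fin N → ℂ => a + v) ⁻¹' closedBall a R = B := by
    ext v
    rw [Set.mem_preimage, hB, mem_closedBall_zero_iff, mem_closedBall, dist_eq_norm,
      add_sub_cancel_left]
  have h5 := (measurePreserving_add_left (volume : Measure (Fin N → ℂ)) a).integrableOn_comp_preimage
    (measurableEmbedding_addLeft a)
    (f := fun z : Fin N → ℂ => Real.log ‖MvPolynomial.eval z h‖) (s := closedBall a R)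
  rw [hpre] at h5
  exact h5.1 hli

theorem pf_PLL : T_PLL := by
  intro N m h hN hhom hne
  obtain ⟨a, ha⟩ : ∃ a : Fin N → ℂ, MvPolynomial.eval a h ≠ 0 := by
    by_contra hcon
    push Not at hcon
    exact hne (MvPolynomial.funext fun x => by rw [hcon x, map_zero])
  have hnsqc : Continuous (nsq : (Fin N → ℂ) → ℝ) := by
    unfold nsq
    fun_prop
  have hellm : Measurable (ell : (Fin N → ℂ) → ℝ) := by
    unfold ell
    exact (Real.measurable_log.comp hnsqc.measurable).const_mul _
  set sh : Set (Fin N → ℂ) := {z : Fin N → ℂ | 0 ≤ ell z ∧ ell z < 1} with hsh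
  have hshm : MeasurableSet sh :=
    (measurableSet_le measurable_const hellm).inter (measurableSet_lt hellm measurable_const)
  have hsub : sh ⊆ closedBall a (Real.exp 1 + ‖a‖) := by
    intro z hz
    have h1 : nsq z ≤ Real.exp 1 ^ 2 := by
      rcases (show 0 ≤ nsq z by unfold nsq; positivity).eq_or_lt with h0 | h0
      · rw [← h0]; positivity
      · have h2 : Real.log (nsq z) < 2 := by
          have := hz.2
          unfold ell at this
          linarith
        rw [← Real.exp_nat_mul]
        push_cast
        rw [mul_one]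
        exact ((Real.log_lt_iff_lt_exp h0).1 h2).le
    have h3 : ‖z‖ ≤ Real.exp 1 := by
      rw [pi_norm_le_iff_of_nonneg (Real.exp_pos 1).le]
      intro i
      have h4 : ‖z i‖ ^ 2 ≤ nsq z := by
        unfold nsq
        exact Finset.single_le_sum (f := fun i => ‖z i‖ ^ 2) (fun _ _ => sq_nonneg _)
          (Finset.mem_univ i)
      exact (pow_le_pow_iff_left₀ (norm_nonneg _) (Real.exp_pos 1).le two_ne_zero).1
        (h4.trans h1)
    rw [mem_closedBall, dist_eq_norm]
    exact (norm_sub_le _ _).trans (by linarith)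
  have hint := (int_ball h a ha (Real.exp 1 + ‖a‖)).mono_set hsub
  have hshf : volume sh ≠ ∞ :=
    ((measure_mono hsub).trans_lt measure_closedBall_lt_top).ne
  have hbd : IntegrableOn (fun z : Fin N → ℂ => ‖Real.log ‖MvPolynomial.eval z h‖‖ + (m : ℝ)) sh :=
    hint.norm.add (integrableOn_const hshf)
  refine hbd.mono' ?_ ?_
  · apply Measurable.aestronglyMeasurable
    apply Real.measurable_log.comp
    unfold nv nrm
    exact (MvPolynomial.continuous_eval h).norm.measurable.div
      ((Real.continuous_sqrt.comp hnsqc).pow m).measurable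
  · rw [ae_restrict_iff' hshm]
    refine Filter.Eventually.of_forall fun z hz => ?_
    have hell : |Real.log (nrm z)| ≤ 1 := by
      have h1 : Real.log (nrm z) = ell z := by
        unfold nrm ell
        rw [Real.log_sqrt (by unfold nsq; positivity)]
        ring
      rw [h1, abs_le]
      exact ⟨by linarith [hz.1], hz.2.le⟩
    unfold nv
    by_cases h0 : ‖MvPolynomial.eval z h‖ = 0
    · rw [h0, zero_div, Real.log_zero, norm_zero]
      positivity
    · by_cases h2 : nrm z ^ m = 0
      · rw [h2, div_zero, Real.log_zero, norm_zero]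
        positivity
      · rw [Real.log_div h0 h2, Real.log_pow]
        refine (norm_sub_le _ _).trans ?_
        have h3 : ‖(m : ℝ) * Real.log (nrm z)‖ ≤ m := by
          rw [norm_mul, Real.norm_natCast, Real.norm_eq_abs]
          exact mul_le_of_le_one_right (Nat.cast_nonneg m) hell
        linarith

end Pool.Agent.H95.EQ
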