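import Pool.Agent.H95.EQ.TG

/-!
Board MP_75a732_an, row TH: generic matrices.
-/

namespace Pool.Agent.H95.EQ

open scoped BigOperators ComplexConjugate
open MeasureTheory Pool.Agent.H92.EQ

variable {N : ℕ}

/-- The direction `t ↦ t P`. -/
noncomputable def dir (P : Fin N → Fin N → ℂ) : ℂ →ₗ[ℂ] (Fin N → Fin N → ℂ) where
  toFun t := t • P
  map_add' a b := add_smul a b P
  map_smul' a b := by simp [smul_smul]

theorem ae_det_line (Y : Matrix (Fin N) (Fin N) ℂ) :
    ∀ᵐ t : ℂ, (Matrix.scalar (Fin N) t + Y).det ≠ 0 := by
  have hfin : {t : ℂ | ¬ (Matrix.scalar (Fin N) t + Y).det ≠ 0}.Finite := by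
    have h0 : (-Y).charpoly ≠ 0 := (Matrix.charpoly_monic (-Y)).ne_zero
    refine ((-Y).charpoly.roots.toFinset.finite_toSet).subset ?_
    intro t ht
    rw [Set.mem_setOf_eq, not_not] at ht
    simp only [Finset.mem_coe, Multiset.mem_toFinset, Polynomial.mem_roots h0,
      Polynomial.IsRoot.def, Matrix.eval_charpoly]
    rw [sub_neg_eq_add]
    exact ht
  rw [ae_iff]
  exact hfin.measure_zero _

theorem continuous_det_of : Continuous fun X : Fin N → Fin N → ℂ => (Matrix.of X).det := by
  refine Continuous.matrix_det ?_
  exact continuous_id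

theorem continuous_det_updateRow (i : Fin N) (v : Fin N → ℂ) :
    Continuous fun X : Fin N → Fin N → ℂ => ((Matrix.of X).updateRow i v).det := by
  refine Continuous.matrix_det ?_
  refine continuous_matrix fun a b => ?_
  by_cases ha : a = i
  · subst ha
    simp only [Matrix.updateRow_self]
    exact continuous_const
  · simp only [Matrix.updateRow_ne ha, Matrix.of_apply]
    exact (continuous_apply b).comp (continuous_apply a)

theorem ae_of_lines (f : (Fin N → Fin N → ℂ) → ℂ) (hf : Continuous f)
    (P : Fin N → Fin N → ℂ) (h : ∀ Y, ∀ᵐ t : ℂ, f (Y + t • P) ≠ 0) :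
    ∀ᵐ X, f X ≠ 0 := by
  have hs : MeasurableSet {X | f X ≠ 0} :=
    (isOpen_ne_fun hf continuous_const).measurableSet
  haveI : (volume : Measure (Fin N → Fin N → ℂ)).IsAddHaarMeasure :=
    Measure.pi.isAddHaarMeasure (fun _ : Fin N => (volume : Measure (Fin N → ℂ)))
  exact ae_mem_of_ae_add_linearMap_mem (dir P) (volume : Measure ℂ)
    (volume : Measure (Fin N → Fin N → ℂ)) hs h

theorem cof_eq (X : Fin N → Fin N → ℂ) (i j : Fin N) :
    (Matrix.of (rep X i j 1)).det - (Matrix.of (rep X i j 0)).det =
      ((Matrix.of X).updateRow i (Pi.single j (1 : ℂ))).det := by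
  rw [rep_eq X i j 1, Matrix.det_updateRow_add, Matrix.det_updateRow_smul,
    Matrix.updateRow_eq_self]
  have e : Matrix.updateRow (Matrix.of (rep X i j 0)) i (Pi.single j (1 : ℂ)) =
      (Matrix.of X).updateRow i (Pi.single j (1 : ℂ)) := by
    ext a b
    by_cases ha : a = i
    · subst ha; simp
    · rw [Matrix.updateRow_ne ha, Matrix.updateRow_ne ha]
      simp [rep, ha]
  rw [e]
  ring

theorem pf_TH : T_TH := by
  intro N i j
  constructor
  · refine ae_of_lines (fun X => (Matrix.of X).det) continuous_det_of
      (fun a b => if a = b then 1 else 0) ?_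
    intro Y
    filter_upwards [ae_det_line (Matrix.of Y)] with t ht
    have e : Matrix.of (Y + t • (fun a b : Fin N => if a = b then (1 : ℂ) else 0)) =
        Matrix.scalar (Fin N) t + Matrix.of Y := by
      ext a b
      simp only [Matrix.of_apply, Pi.add_apply, Pi.smul_apply, smul_eq_mul, Matrix.add_apply,
        Matrix.scalar_apply, Matrix.diagonal_apply]
      split_ifs <;> ring
    rw [e]
    exact ht
  · have hmain : ∀ᵐ X : Fin N → Fin N → ℂ,
        ((Matrix.of X).updateRow i (Pi.single j (1 : ℂ))).det ≠ 0 := by
      refine ae_of_lines (fun X => ((Matrix.of X).updateRow i (Pi.single j (1 : ℂ))).det)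
        (continuous_det_updateRow i _) (fun a b => if b = Equiv.swap i j a then 1 else 0) ?_
      intro Y
      set σ := Equiv.swap i j with hσ
      set P : Fin N → Fin N → ℂ := fun a b => if b = σ a then 1 else 0 with hP
      set Z : Matrix (Fin N) (Fin N) ℂ :=
        Matrix.of (fun a b => if a = i then 0 else Y a (σ b)) with hZ
      filter_upwards [ae_det_line Z] with t ht
      intro h0
      apply ht
      set W := (Matrix.of (Y + t • P)).updateRow i (Pi.single j (1 : ℂ)) with hW
      have h1 : (W.submatrix id σ).det = 0 := by
        rw [Matrix.det_permute', h0, mul_zero]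
      have h2 : Matrix.scalar (Fin N) t + Z =
          (W.submatrix id σ).updateRow i (t • (W.submatrix id σ) i) := by
        ext a b
        by_cases ha : a = i
        · subst ha
          rw [Matrix.updateRow_self, Pi.smul_apply, Matrix.submatrix_apply, id, hW,
            Matrix.updateRow_self, smul_eq_mul, Matrix.add_apply, Matrix.scalar_apply,
            Matrix.diagonal_apply, hZ, Matrix.of_apply, if_pos rfl, add_zero, Pi.single_apply]
          have : (σ b = j) ↔ (a = b) := by
            rw [hσ]
            constructor
            · intro h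
              have := congrArg (Equiv.swap a j) h
              rw [Equiv.swap_apply_self, Equiv.swap_apply_right] at this
              exact this.symm
            · intro h
              subst h
              exact Equiv.swap_apply_left _ _
          by_cases hab : a = b
          · rw [if_pos hab, if_pos (this.2 hab), mul_one]
          · rw [if_neg hab, if_neg (fun h => hab (this.1 h)), mul_zero]
        · rw [Matrix.updateRow_ne ha, Matrix.submatrix_apply, id, hW, Matrix.updateRow_ne ha,
            Matrix.of_apply, Pi.add_apply, Pi.add_apply, Pi.smul_apply, Pi.smul_apply,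
            Matrix.add_apply, Matrix.scalar_apply, Matrix.diagonal_apply, hZ, Matrix.of_apply,
            if_neg ha, hP, smul_eq_mul]
          have : (σ b = σ a) ↔ (a = b) :=
            ⟨fun h => (σ.injective h).symm, fun h => by rw [h]⟩
          by_cases hab : a = b
          · simp only [if_pos hab, if_pos (this.2 hab)]
            ring
          · simp only [if_neg hab, if_neg (fun h => hab (this.1 h))]
            ring
      rw [h2, Matrix.det_updateRow_smul, Matrix.updateRow_eq_self, h1, mul_zero]
    filter_upwards [hmain] with X hX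
    rw [cof_eq]
    exact hX

end Pool.Agent.H95.EQ
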