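import Pool.Agent.H71.EQ.Targets

/-!
# The local condition is periodic (board eqr, row PER)
-/

set_option autoImplicit false

namespace Pool.Agent.H95.EQ

open Pool.Agent.H71.EQ

/-- the entries of `ext` change by multiples of `M` -/
theorem ext_cong {k : ℕ} (M : ℤ) (v u : Fin k → ℤ) (a : Fin (k + 1)) :
    ∃ t : ℤ, ext (fun i => v i + M * u i) a = ext v a + M * t := by
  refine Fin.lastCases ?_ (fun i => ?_) a
  · refine ⟨-∑ i, u i, ?_⟩
    simp only [ext, Fin.snoc_last, Finset.sum_add_distrib, ← Finset.mul_sum]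
    ring
  · refine ⟨u i, ?_⟩
    simp only [ext, Fin.snoc_castSucc]

theorem dvd_cong {d M x y t : ℤ} (h : d ∣ M) (hx : x = y + M * t) : d ∣ x ↔ d ∣ y := by
  rw [hx]
  exact dvd_add_left (h.mul_right t)

theorem pf_PER : T_PER := by
  intro k p j v u
  have h1 : ∀ (e : ℕ) (a : Fin (k + 1)), e ≤ j + 2 →
      ((p : ℤ) ^ e ∣ ext (fun i => v i + (p : ℤ) ^ (j + 2) * u i) a ↔
        (p : ℤ) ^ e ∣ ext v a) := by
    intro e a he
    obtain ⟨t, ht⟩ := ext_cong ((p : ℤ) ^ (j + 2)) v u a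
    exact dvd_cong (pow_dvd_pow _ he) ht
  have h2 : ∀ a : Fin (k + 1),
      ((p : ℤ) ∣ ext (fun i => v i + (p : ℤ) ^ (j + 2) * u i) a ↔ (p : ℤ) ∣ ext v a) := by
    intro a
    have h3 := h1 1 a (by omega)
    rwa [pow_one] at h3
  unfold Loc
  refine and_congr ?_ ?_
  · simp only [h2]
  · split_ifs
    · simp only [h1 2 _ (by omega : (2 : ℕ) ≤ j + 2)]
    · simp only [h1 (j + 1) _ (by omega : j + 1 ≤ j + 2), h1 (j + 2) _ le_rfl]

end Pool.Agent.H95.EQ
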