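import Pool.Agent.H92.EQ.TT

/-!
Board MP_75a732_an, row TG: one entry of a matrix moves.
-/

namespace Pool.Agent.H95.EQ

open scoped BigOperators ComplexConjugate
open MeasureTheory Pool.Agent.H92.EQ

variable {N : ℕ}

theorem rep_eq (X : Fin N → Fin N → ℂ) (i j : Fin N) (t : ℂ) :
    Matrix.of (rep X i j t) =
      Matrix.updateRow (Matrix.of (rep X i j 0)) i
        ((Matrix.of (rep X i j 0)) i + t • Pi.single j (1 : ℂ)) := by
  ext a b
  rw [Matrix.updateRow_apply]
  by_cases ha : a = i
  · subst ha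
    by_cases hb : b = j
    · subst hb; simp [rep]
    · simp [rep, hb]
  · simp [rep, ha]

theorem det_rep (X : Fin N → Fin N → ℂ) (i j : Fin N) (t : ℂ) :
    (Matrix.of (rep X i j t)).det = (Matrix.of (rep X i j 0)).det +
      t * ((Matrix.of (rep X i j 1)).det - (Matrix.of (rep X i j 0)).det) := by
  have key : ∀ s : ℂ, (Matrix.of (rep X i j s)).det = (Matrix.of (rep X i j 0)).det +
      s * (Matrix.updateRow (Matrix.of (rep X i j 0)) i (Pi.single j (1 : ℂ))).det := by
    intro s
    rw [rep_eq X i j s, Matrix.det_updateRow_add, Matrix.det_updateRow_smul,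
      Matrix.updateRow_eq_self]
  rw [key t, key 1]
  ring

theorem nsq_nonneg (z : Fin N → ℂ) : 0 ≤ nsq z :=
  Finset.sum_nonneg fun _ _ => by positivity

theorem nsq_pos {z : Fin N → ℂ} (hz : z ≠ 0) : 0 < nsq z := by
  obtain ⟨i, hi⟩ := Function.ne_iff.1 hz
  have h1 : ‖z i‖ ^ 2 ≤ nsq z :=
    Finset.single_le_sum (f := fun i => ‖z i‖ ^ 2) (fun _ _ => by positivity) (Finset.mem_univ i)
  have h2 : 0 < ‖z i‖ := norm_pos_iff.2 hi
  have h3 : 0 < ‖z i‖ ^ 2 := by positivity
  linarith

theorem nsq_mulVec (M : Matrix (Fin N) (Fin N) ℂ) (B : ℝ) (_hB : 0 ≤ B)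
    (h : ∀ a b, ‖M a b‖ ≤ B) (y : Fin N → ℂ) :
    nsq (M.mulVec y) ≤ (N * B) ^ 2 * nsq y := by
  have h1 : ∀ a, ‖M.mulVec y a‖ ^ 2 ≤ N * B ^ 2 * nsq y := by
    intro a
    have h2 : ‖M.mulVec y a‖ ≤ ∑ b, B * ‖y b‖ := by
      unfold Matrix.mulVec dotProduct
      refine (norm_sum_le _ _).trans (Finset.sum_le_sum fun b _ => ?_)
      rw [norm_mul]
      exact mul_le_mul_of_nonneg_right (h a b) (norm_nonneg _)
    have h3 : (∑ b, B * ‖y b‖) ^ 2 ≤ N * ∑ b, (B * ‖y b‖) ^ 2 := by
      have := sq_sum_le_card_mul_sum_sq (s := (Finset.univ : Finset (Fin N)))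
        (f := fun b => B * ‖y b‖)
      simpa using this
    have h4 : ∑ b, (B * ‖y b‖) ^ 2 = B ^ 2 * nsq y := by
      unfold nsq
      rw [Finset.mul_sum]
      exact Finset.sum_congr rfl fun b _ => by ring
    calc ‖M.mulVec y a‖ ^ 2 ≤ (∑ b, B * ‖y b‖) ^ 2 :=
          pow_le_pow_left₀ (norm_nonneg _) h2 2
      _ ≤ N * ∑ b, (B * ‖y b‖) ^ 2 := h3
      _ = N * B ^ 2 * nsq y := by rw [h4]; ring
  have h5 : nsq (M.mulVec y) ≤ ∑ _a : Fin N, (N * B ^ 2 * nsq y) := by
    unfold nsq at h1 ⊢
    exact Finset.sum_le_sum fun a _ => h1 a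
  rw [Finset.sum_const, Finset.card_univ, Fintype.card_fin, nsmul_eq_mul] at h5
  calc nsq (M.mulVec y) ≤ N * (N * B ^ 2 * nsq y) := h5
    _ = (N * B) ^ 2 * nsq y := by ring

theorem ell_mulVec (M : Matrix (Fin N) (Fin N) ℂ) (B : ℝ) (hB : 0 < B) (hN : 0 < N)
    (h : ∀ a b, ‖M a b‖ ≤ B) (y : Fin N → ℂ) (hy : y ≠ 0) (hM : M.mulVec y ≠ 0) :
    ell (M.mulVec y) ≤ Real.log (N * B) + ell y := by
  have hN' : (0 : ℝ) < N := by exact_mod_cast hN
  have h1 := nsq_mulVec M B hB.le h y
  have h2 := nsq_pos hy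
  have h3 := nsq_pos hM
  have h4 : Real.log (nsq (M.mulVec y)) ≤ Real.log ((N * B) ^ 2 * nsq y) :=
    Real.log_le_log h3 h1
  rw [Real.log_mul (by positivity) (by positivity), Real.log_pow] at h4
  unfold ell
  push_cast at h4
  linarith

theorem ell_smul (c : ℂ) (hc : c ≠ 0) (y : Fin N → ℂ) (hy : y ≠ 0) :
    ell (c • y) = Real.log ‖c‖ + ell y := by
  have h1 : nsq (c • y) = ‖c‖ ^ 2 * nsq y := by
    unfold nsq
    rw [Finset.mul_sum]
    refine Finset.sum_congr rfl fun i _ => ?_
    rw [Pi.smul_apply, smul_eq_mul, norm_mul]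
    ring
  have h2 := nsq_pos hy
  have h3 : 0 < ‖c‖ := norm_pos_iff.2 hc
  unfold ell
  rw [h1, Real.log_mul (by positivity) (by positivity), Real.log_pow]
  push_cast
  ring

theorem log_one_add_le (s : ℝ) (hs : 0 < s) :
    Real.log (1 + s) ≤ Real.log 2 + max 0 (Real.log s) := by
  rcases le_total s 1 with h | h
  · have : Real.log (1 + s) ≤ Real.log 2 := Real.log_le_log (by linarith) (by linarith)
    have := le_max_left 0 (Real.log s)
    linarith
  · have h1 : Real.log (1 + s) ≤ Real.log (2 * s) := Real.log_le_log (by linarith) (by linarith)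
    rw [Real.log_mul (by norm_num) (by positivity)] at h1
    have := le_max_right 0 (Real.log s)
    linarith

theorem pf_TG : T_TG := by
  intro N X i j hc
  have hN : 0 < N := i.pos
  have hN1 : (1 : ℝ) ≤ N := by exact_mod_cast hN
  set c : ℂ := (Matrix.of (rep X i j 1)).det - (Matrix.of (rep X i j 0)).det with hcdef
  set d0 : ℂ := (Matrix.of (rep X i j 0)).det with hd0
  have hdet : ∀ t, (Matrix.of (rep X i j t)).det = c * (t - -(d0 / c)) := by
    intro t
    rw [det_rep X i j t, ← hcdef, ← hd0]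
    field_simp
    ring
  set t1 : ℂ := -(d0 / c) with ht1
  -- bound of the entries
  set K : ℝ := 1 + ‖t1‖ + ∑ a, ∑ b, ‖X a b‖ with hK
  have hsum0 : 0 ≤ ∑ a, ∑ b, ‖X a b‖ :=
    Finset.sum_nonneg fun _ _ => Finset.sum_nonneg fun _ _ => norm_nonneg _
  have hK1 : 1 ≤ K := by
    have := norm_nonneg t1
    linarith
  have hXab : ∀ a b, ‖X a b‖ ≤ ∑ a, ∑ b, ‖X a b‖ := by
    intro a b
    have e1 : ‖X a b‖ ≤ ∑ b, ‖X a b‖ :=
      Finset.single_le_sum (f := fun b => ‖X a b‖) (fun _ _ => norm_nonneg _) (Finset.mem_univ b)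
    have e2 : ∑ b, ‖X a b‖ ≤ ∑ a, ∑ b, ‖X a b‖ :=
      Finset.single_le_sum (f := fun a => ∑ b, ‖X a b‖)
        (fun _ _ => Finset.sum_nonneg fun _ _ => norm_nonneg _) (Finset.mem_univ a)
    exact e1.trans e2
  have hent : ∀ t a b, ‖(Matrix.of (rep X i j t)) a b‖ ≤ K * (1 + ‖t - t1‖) := by
    intro t a b
    have hs := norm_nonneg (t - t1)
    have hb1 : K ≤ K * (1 + ‖t - t1‖) := by nlinarith
    by_cases hab : a = i ∧ b = j
    · obtain ⟨rfl, rfl⟩ := hab
      have e : (Matrix.of (rep X a b t)) a b = t := by simp [rep]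
      rw [e]
      have e2 : ‖t‖ ≤ ‖t - t1‖ + ‖t1‖ := by
        simpa using norm_add_le (t - t1) t1
      nlinarith
    · have e : (Matrix.of (rep X i j t)) a b = X a b := by
        by_cases ha : a = i
        · subst ha
          have hb : b ≠ j := fun h => hab ⟨rfl, h⟩
          simp [rep, hb]
        · simp [rep, ha]
      rw [e]
      have := hXab a b
      have := norm_nonneg t1
      linarith
  refine ⟨t1, N * Real.log 2 + |Real.log (N * K)| + |Real.log (N * ((N.factorial : ℝ) * K ^ N))| +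
    |Real.log ‖c‖|, ?_, ?_⟩
  · intro t
    rw [hdet t]
    constructor
    · intro h
      rcases mul_eq_zero.1 h with h | h
      · exact absurd h hc
      · exact sub_eq_zero.1 h
    · intro h
      rw [sub_eq_zero.2 h, mul_zero]
  · intro t ht y hy
    set A := Matrix.of (rep X i j t) with hA
    have hs : 0 < ‖t - t1‖ := norm_pos_iff.2 (sub_ne_zero.2 ht)
    set s := ‖t - t1‖ with hsdef
    have hD : A.det = c * (t - t1) := hdet t
    have hD0 : A.det ≠ 0 := by rw [hD]; exact mul_ne_zero hc (sub_ne_zero.2 ht)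
    have hAy : A.mulVec y ≠ 0 := by
      intro h
      have h1 : A.adjugate.mulVec (A.mulVec y) = A.det • y := by
        rw [Matrix.mulVec_mulVec, Matrix.adjugate_mul, Matrix.smul_mulVec, Matrix.one_mulVec]
      rw [h, Matrix.mulVec_zero] at h1
      exact (smul_ne_zero hD0 hy) h1.symm
    have hadj : A.adjugate.mulVec (A.mulVec y) = A.det • y := by
      rw [Matrix.mulVec_mulVec, Matrix.adjugate_mul, Matrix.smul_mulVec, Matrix.one_mulVec]
    have hB1 : 1 ≤ K * (1 + s) := by nlinarith
    have hup := ell_mulVec A (K * (1 + s)) (by linarith) hN (hent t) y hy hAy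
    have hadjent : ∀ a b, ‖A.adjugate a b‖ ≤ (N.factorial : ℝ) * (K * (1 + s)) ^ N := by
      intro a b
      rw [Matrix.adjugate_apply]
      have := Matrix.det_le (A := A.updateRow b (Pi.single a 1))
        (abv := NormedField.toAbsoluteValue ℂ) (x := K * (1 + s)) (by
          intro k l
          change ‖A.updateRow b (Pi.single a 1) k l‖ ≤ _
          rw [Matrix.updateRow_apply]
          split_ifs with hk
          · by_cases hl : l = a
            · subst hl; simpa using hB1
            · rw [Pi.single_eq_of_ne hl, norm_zero]; linarith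
          · exact hent t k l)
      rw [nsmul_eq_mul, Fintype.card_fin] at this
      exact this
    have hfac : (0 : ℝ) < N.factorial := by exact_mod_cast N.factorial_pos
    have hlow := ell_mulVec A.adjugate ((N.factorial : ℝ) * (K * (1 + s)) ^ N) (by positivity) hN
      hadjent (A.mulVec y) hAy (by rw [hadj]; exact smul_ne_zero hD0 hy)
    rw [hadj, ell_smul _ hD0 _ hy, hD, norm_mul, Real.log_mul (norm_ne_zero_iff.2 hc)
      hs.ne'] at hlow
    have hl1 := log_one_add_le s hs
    have e1 : Real.log (N * (K * (1 + s))) = Real.log (N * K) + Real.log (1 + s) := by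
      rw [← Real.log_mul (by positivity) (by positivity)]
      congr 1
      ring
    have e2 : Real.log (N * ((N.factorial : ℝ) * (K * (1 + s)) ^ N)) =
        Real.log (N * ((N.factorial : ℝ) * K ^ N)) + N * Real.log (1 + s) := by
      rw [← Real.log_pow, ← Real.log_mul (by positivity) (by positivity)]
      congr 1
      rw [mul_pow]
      ring
    rw [e1] at hup
    rw [e2] at hlow
    have a1 := le_abs_self (Real.log (N * K))
    have a1' := abs_nonneg (Real.log (N * K))
    have a2 := le_abs_self (Real.log (N * ((N.factorial : ℝ) * K ^ N)))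
    have a2' := abs_nonneg (Real.log (N * ((N.factorial : ℝ) * K ^ N)))
    have a3 := neg_abs_le (Real.log ‖c‖)
    have a3' := abs_nonneg (Real.log ‖c‖)
    have hlog2 : 0 < Real.log 2 := Real.log_pos (by norm_num)
    have hl2 : (N : ℝ) * Real.log (1 + s) ≤ N * Real.log 2 + N * max 0 (Real.log s) := by
      have := mul_le_mul_of_nonneg_left hl1 (by positivity : (0 : ℝ) ≤ N)
      linarith
    have hmx : max 0 (Real.log s) ≤ |Real.log s| := max_le (abs_nonneg _) (le_abs_self _)
    have hmxN : max 0 (Real.log s) ≤ N * |Real.log s| := by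
      have := abs_nonneg (Real.log s)
      nlinarith
    have hlN : Real.log 2 ≤ N * Real.log 2 := by nlinarith
    have hfin : (N : ℝ) * max 0 (Real.log s) - Real.log s ≤ N * |Real.log s| := by
      rcases le_total 0 (Real.log s) with h | h
      · rw [max_eq_right h, abs_of_nonneg h]; linarith
      · rw [max_eq_left h, abs_of_nonpos h]; nlinarith
    rw [abs_le]
    constructor
    · linarith
    · linarith

end Pool.Agent.H95.EQ
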