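import Pool.Agent.H92.EQ.TP
import Pool.Agent.H73.EQ.D3

/-!
Board MP_75a732_an, row PDE: densities.
-/

namespace Pool.Agent.H95.EQ

open scoped BigOperators ComplexConjugate ContDiff ComplexOrder
open MeasureTheory Pool.Agent.H92.EQ

/-- an alternating tensor of top degree which is killed by a vector vanishes -/
theorem top_zero {k : ℕ} (v g : Fin (k + 1) → ℂ) (hv : v ≠ 0) (hg : ∑ a, v a * g a = 0)
    (τ : (Fin k → Fin (k + 1)) → ℂ)
    (hτ : ∀ (π : Equiv.Perm (Fin k)) R, τ (R ∘ π) = ((Equiv.Perm.sign π : ℤ) : ℂ) * τ R)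
    (hk : ∀ R (j : Fin k), ∑ a, v a * τ (Function.update R j a) = 0)
    (I : Fin (k + 1) → Fin (k + 1)) :
    ∑ j : Fin (k + 1), (-1 : ℂ) ^ (j : ℕ) * (g (I j) * τ (I ∘ j.succAbove)) = 0 := by
  set T : (Fin (k + 1) → Fin (k + 1)) → ℂ := fun I =>
    ∑ j : Fin (k + 1), (-1 : ℂ) ^ (j : ℕ) * (g (I j) * τ (I ∘ j.succAbove)) with hT
  have halt : ∀ (I : Fin (k + 1) → Fin (k + 1)) (π : Equiv.Perm (Fin (k + 1))),
      T (I ∘ π) = ((Equiv.Perm.sign π : ℤ) : ℂ) * T I := by
    intro I π
    exact Pool.Agent.H73.EQ.alt_sum (fun x R => g x * τ R) (by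
      intro x π' R
      rw [hτ]
      ring) I π
  have hni : ∀ (I : Fin (k + 1) → Fin (k + 1)) (p q : Fin (k + 1)), p ≠ q → I p = I q →
      T I = 0 := by
    intro I p q hpq hI
    have h1 := halt I (Equiv.swap p q)
    have h2 : I ∘ (Equiv.swap p q) = I := by
      funext x
      simp only [Function.comp]
      rw [Equiv.swap_apply_def]
      split_ifs with ha hb
      · rw [ha, hI]
      · rw [hb, hI]
      · rfl
    rw [h2, Equiv.Perm.sign_swap hpq] at h1
    push_cast at h1
    have h3 : (2 : ℂ) * T I = 0 := by linear_combination h1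
    exact (mul_eq_zero.1 h3).resolve_left two_ne_zero
  have hct : ∀ (I : Fin (k + 1) → Fin (k + 1)) (j₀ : Fin (k + 1)),
      ∑ a, v a * T (Function.update I j₀ a) = 0 := by
    intro I j₀
    simp only [hT, Finset.mul_sum]
    rw [Finset.sum_comm]
    apply Finset.sum_eq_zero
    intro j _
    by_cases hj : j = j₀
    · subst hj
      have h1 : ∀ a : Fin (k + 1), v a * ((-1 : ℂ) ^ (j : ℕ) * (g (Function.update I j a j) *
          τ (Function.update I j a ∘ j.succAbove))) =
          ((-1 : ℂ) ^ (j : ℕ) * τ (I ∘ j.succAbove)) * (v a * g a) := by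
        intro a
        have h2 : Function.update I j a ∘ j.succAbove = I ∘ j.succAbove := by
          funext x
          simp only [Function.comp]
          rw [Function.update_of_ne (Fin.succAbove_ne j x)]
        rw [h2, Function.update_self]
        ring
      rw [Finset.sum_congr rfl fun a _ => h1 a, ← Finset.mul_sum, hg, mul_zero]
    · obtain ⟨j', hj'⟩ := Fin.exists_succAbove_eq (Ne.symm hj)
      have h1 : ∀ a : Fin (k + 1), v a * ((-1 : ℂ) ^ (j : ℕ) * (g (Function.update I j₀ a j) *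
          τ (Function.update I j₀ a ∘ j.succAbove))) =
          ((-1 : ℂ) ^ (j : ℕ) * g (I j)) *
            (v a * τ (Function.update (I ∘ j.succAbove) j' a)) := by
        intro a
        have h2 : Function.update I j₀ a ∘ j.succAbove =
            Function.update (I ∘ j.succAbove) j' a := by
          rw [← hj']
          exact Function.update_comp_eq_of_injective I Fin.succAbove_right_injective j' a
        rw [h2, Function.update_of_ne hj]
        ring
      rw [Finset.sum_congr rfl fun a _ => h1 a, ← Finset.mul_sum, hk, mul_zero]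
  change T I = 0
  by_cases hI : Function.Injective I
  · have hsurj := Finite.surjective_of_injective hI
    obtain ⟨a₀, ha₀⟩ : ∃ a₀, v a₀ ≠ 0 := by
      by_contra h
      push Not at h
      exact hv (funext h)
    obtain ⟨j₀, hj₀⟩ := hsurj a₀
    have h1 := hct I j₀
    rw [Finset.sum_eq_single a₀] at h1
    · rw [← hj₀, Function.update_eq_self] at h1
      rw [hj₀] at h1
      exact (mul_eq_zero.1 h1).resolve_left ha₀
    · intro a _ ha
      obtain ⟨j₁, hj₁⟩ := hsurj a
      have hne : j₁ ≠ j₀ := by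
        intro h
        rw [h, hj₀] at hj₁
        exact ha hj₁.symm
      rw [hni _ j₁ j₀ hne (by
        rw [Function.update_of_ne hne, Function.update_self, hj₁]), mul_zero]
    · intro h
      exact absurd (Finset.mem_univ _) h
  · rw [Function.Injective] at hI
    push Not at hI
    obtain ⟨p, q, hpq, hne⟩ := hI
    exact hni I p q hne hpq

theorem pf_PDE (hW1 : T_W1) (hL2 : T_L2) : T_PDE := by
  intro k ρ σ hσ hρ hρ0
  have hLH : LH 0 ρ := ⟨hρ.smooth, fun l z hl hz => by rw [hρ.hom l z hl hz]; ring⟩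
  have hρs : ContDiffOn ℝ ∞ (fun w : Fin (k + 1) → ℂ => ((ρ w : ℝ) : ℂ)) {0}ᶜ :=
    Complex.ofRealCLM.contDiff.comp_contDiffOn hρ.smooth
  have hopen : IsOpen ({0}ᶜ : Set (Fin (k + 1) → ℂ)) := isOpen_compl_singleton
  have hdρ : ∀ z ∈ ({0}ᶜ : Set (Fin (k + 1) → ℂ)),
      DifferentiableAt ℝ (fun w : Fin (k + 1) → ℂ => ((ρ w : ℝ) : ℂ)) z := fun z hz =>
    (hρs.contDiffAt (hopen.mem_nhds hz)).differentiableAt (by simp)
  have hdσ : ∀ z ∈ ({0}ᶜ : Set (Fin (k + 1) → ℂ)), ∀ I J,
      DifferentiableAt ℝ (fun w : Fin (k + 1) → ℂ => σ w I J) z := fun z hz I J =>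
    ((hσ.cp.smooth I J).contDiffAt (hopen.mem_nhds hz)).differentiableAt (by simp)
  refine ⟨⟨?_, ?_, ?_, ?_, ?_, ?_⟩, ?_, ?_, ?_⟩
  · intro I J
    exact hρs.mul (hσ.cp.smooth I J)
  · intro z hz π I J
    unfold dens
    rw [hσ.cp.altL z hz π I J]
    ring
  · intro z hz π I J
    unfold dens
    rw [hσ.cp.altR z hz π I J]
    ring
  · intro z hz c
    have h1 := hσ.cp.psd z hz c
    have h2 : ∑ I, ∑ J, c I * conj (c J) * dens ρ σ z I J =
        ((ρ z : ℝ) : ℂ) * ∑ I, ∑ J, c I * conj (c J) * σ z I J := by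
      rw [Finset.mul_sum]
      refine Finset.sum_congr rfl fun I _ => ?_
      rw [Finset.mul_sum]
      refine Finset.sum_congr rfl fun J _ => ?_
      unfold dens
      ring
    rw [h2]
    exact mul_nonneg (by exact_mod_cast hρ0 z hz) h1
  · intro z hz I J
    have h1 : ∀ j : Fin (k + 1), (-1 : ℂ) ^ (j : ℕ) *
        wd (I j) (fun w => dens ρ σ w (I ∘ j.succAbove) J) z =
        ((ρ z : ℝ) : ℂ) * ((-1 : ℂ) ^ (j : ℕ) *
          wd (I j) (fun w => σ w (I ∘ j.succAbove) J) z) +
        (-1 : ℂ) ^ (j : ℕ) * (wd (I j) (cx ρ) z * σ z (I ∘ j.succAbove) J) := by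
      intro j
      have h2 := (hW1 (Fin (k + 1)) (I j) (fun w => ((ρ w : ℝ) : ℂ))
        (fun w => σ w (I ∘ j.succAbove) J) z (hdρ z hz) (hdσ z hz _ _)).2.2.1
      unfold dens
      rw [h2]
      unfold cx
      ring
    rw [Finset.sum_congr rfl fun j _ => h1 j, Finset.sum_add_distrib, ← Finset.mul_sum,
      hσ.cp.closedL z hz I J, mul_zero, zero_add]
    have h3 := (hL2 (k + 1) 0 ρ hLH z hz).1
    exact top_zero z (fun a => wd a (cx ρ) z) hz (by rw [h3]; simp) (fun R => σ z R J)
      (fun π R => hσ.cp.altL z hz π R J) (fun R j => hσ.basicL z hz R J j) I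
  · intro z hz I J
    have h1 : ∀ j : Fin (k + 1), (-1 : ℂ) ^ (j : ℕ) *
        wdb (J j) (fun w => dens ρ σ w I (J ∘ j.succAbove)) z =
        ((ρ z : ℝ) : ℂ) * ((-1 : ℂ) ^ (j : ℕ) *
          wdb (J j) (fun w => σ w I (J ∘ j.succAbove)) z) +
        (-1 : ℂ) ^ (j : ℕ) * (wdb (J j) (cx ρ) z * σ z I (J ∘ j.succAbove)) := by
      intro j
      have h2 := (hW1 (Fin (k + 1)) (J j) (fun w => ((ρ w : ℝ) : ℂ))
        (fun w => σ w I (J ∘ j.succAbove)) z (hdρ z hz) (hdσ z hz _ _)).2.2.2.1
      unfold dens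
      rw [h2]
      unfold cx
      ring
    rw [Finset.sum_congr rfl fun j _ => h1 j, Finset.sum_add_distrib, ← Finset.mul_sum,
      hσ.cp.closedR z hz I J, mul_zero, zero_add]
    have h3 := (hL2 (k + 1) 0 ρ hLH z hz).2.1
    have hz' : (fun a => conj (z a)) ≠ (0 : Fin (k + 1) → ℂ) := by
      intro h
      apply hz
      funext a
      have := congrFun h a
      simpa using this
    exact top_zero (fun a => conj (z a)) (fun a => wdb a (cx ρ) z) hz' (by rw [h3]; simp)
      (fun R => σ z I R) (fun π R => hσ.cp.altR z hz π I R)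
      (fun R j => hσ.basicR z hz I R j) J
  · intro l z hl hz I J
    unfold dens
    rw [hρ.hom l z hl hz, hσ.homog l z hl hz I J]
    ring
  · intro z hz I J j
    have h1 : ∀ a, z a * dens ρ σ z (Function.update I j a) J =
        ((ρ z : ℝ) : ℂ) * (z a * σ z (Function.update I j a) J) := fun a => by
      unfold dens; ring
    rw [Finset.sum_congr rfl fun a _ => h1 a, ← Finset.mul_sum, hσ.basicL z hz I J j, mul_zero]
  · intro z hz I J j
    have h1 : ∀ a, conj (z a) * dens ρ σ z I (Function.update J j a) =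
        ((ρ z : ℝ) : ℂ) * (conj (z a) * σ z I (Function.update J j a)) := fun a => by
      unfold dens; ring
    rw [Finset.sum_congr rfl fun a _ => h1 a, ← Finset.mul_sum, hσ.basicR z hz I J j, mul_zero]

end Pool.Agent.H95.EQ
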