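import Pool.Agent.H92.EQ.TP

/-!
Board MP_75a732_an, row PNJ: the norm of the Jacobian.
-/

namespace Pool.Agent.H95.EQ

open scoped BigOperators ComplexConjugate
open MeasureTheory Pool.Agent.H92.EQ

theorem pf_PNJ (h1 : T_PNM) (h2 : T_KB) : T_PNJ := by
  intro N d F hN hd hF
  obtain ⟨hne, hhom, _⟩ := h2 N d F hN hd hF
  obtain ⟨P, M, hP, hPM, hdvd⟩ := h1 N d (N * (d - 1)) F (detP F) hN (by omega) hF hhom hne
  refine ⟨P, M, hP, hPM, ?_, hdvd⟩
  by_contra hM
  have hM0 : M = 0 := by omega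
  subst hM0
  have htd : P.totalDegree = 0 := hPM.totalDegree hP
  rw [MvPolynomial.totalDegree_eq_zero_iff_eq_C] at htd
  have hc : MvPolynomial.coeff 0 P ≠ 0 := by
    intro h
    rw [h, map_zero] at htd
    exact hP htd
  obtain ⟨q, hq⟩ := hdvd
  rw [htd, MvPolynomial.bind₁_C_right] at hq
  have hq0 : q ≠ 0 := by
    intro h
    rw [h, mul_zero, MvPolynomial.C_eq_zero] at hq
    exact hc hq
  have h3 := MvPolynomial.totalDegree_mul_of_isDomain hne hq0
  rw [← hq, MvPolynomial.totalDegree_C, hhom.totalDegree hne] at h3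
  have h4 : 1 ≤ N * (d - 1) := Nat.mul_pos hN (by omega)
  omega

end Pool.Agent.H95.EQ
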