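import Pool.Agent.H92.EQ.TP

/-!
Board MP_75a732_an, row PSA: identities for products.
-/

namespace Pool.Agent.H95.EQ

open scoped BigOperators ComplexConjugate
open MeasureTheory Pool.Agent.H92.EQ

theorem psa_tel (f : ℕ → ℝ) (a c : ℕ) (h : a ≤ c) :
    ∑ j ∈ Finset.Ico a c, (f j - f (j + 1)) = f a - f c := by
  induction c, h using Nat.le_induction with
  | base => simp
  | succ n hn ih =>
    rw [Finset.sum_Ico_succ_top hn, ih]
    ring

theorem pf_PSA : T_PSA := by
  intro v θ a b hab
  refine ⟨?_, ?_, ?_⟩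
  · induction b, hab using Nat.le_induction with
    | base => simp
    | succ n hn ih =>
      rw [Finset.sum_Ico_succ_top hn, Finset.prod_Ico_succ_top hn, ← ih]
      ring
  · induction b, hab using Nat.le_induction with
    | base => simp
    | succ n hn ih =>
      rw [Finset.sum_Ico_succ_top hn, Finset.prod_Ico_succ_top hn, Finset.Ico_self,
        Finset.prod_empty]
      have h1 : ∑ j ∈ Finset.Ico a n, v j * ∏ i ∈ Finset.Ico (j + 1) (n + 1), (1 - v i) =
          (∑ j ∈ Finset.Ico a n, v j * ∏ i ∈ Finset.Ico (j + 1) n, (1 - v i)) * (1 - v n) := by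
        rw [Finset.sum_mul]
        apply Finset.sum_congr rfl
        intro j hj
        rw [Finset.mem_Ico] at hj
        rw [Finset.prod_Ico_succ_top (by omega)]
        ring
      rw [h1, ← ih]
      ring
  · set G : ℕ → ℝ := fun j => ∑ i ∈ Finset.Ico j b,
      θ ^ i * (v i * ∏ m ∈ Finset.Ico (i + 1) b, (1 - v m)) with hG
    set P : ℕ → ℝ := fun j => ∏ i ∈ Finset.Ico a j, (1 - v i) with hP
    have hGb : G b = 0 := by simp [hG]
    have hPa : P a = 1 := by simp [hP]
    have h1 : ∀ j ∈ Finset.Ico a b, P j * v j *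
        (θ ^ j * (∏ m ∈ Finset.Ico (j + 1) b, (1 - v m)) + G (j + 1)) =
        (fun j => P j * G j) j - (fun j => P j * G j) (j + 1) := by
      intro j hj
      rw [Finset.mem_Ico] at hj
      have e1 : G j = θ ^ j * (v j * ∏ m ∈ Finset.Ico (j + 1) b, (1 - v m)) + G (j + 1) := by
        simp only [hG]
        rw [Finset.sum_eq_sum_Ico_succ_bot hj.2]
      have e2 : P (j + 1) = P j * (1 - v j) := by
        simp only [hP]
        rw [Finset.prod_Ico_succ_top hj.1]
      simp only
      rw [e1, e2]
      ring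
    rw [Finset.sum_congr rfl h1, psa_tel _ a b hab]
    rw [hGb, hPa]
    ring

end Pool.Agent.H95.EQ
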